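import Pool.Agent.Lib.MP_1f4a82_an.Round
import Pool.Agent.Lib.MP_1f4a82_an.Rotation
import Pool.Agent.Lib.MP_1f4a82_an.Setup
import Pool.Agent.Lib.MP_1f4a82_an.RoundCircle

/-!
Analytic invariant curves of rational functions carrying an irrational rotation: every such curve
is a round circle or a level curve of the linearizer of a Siegel disk or a Herman ring.
-/

open Topology Filter Set

namespace Pool.Agent.Results.MP_1f4a82_an.InvariantCurve

/-- The Riemann sphere. -/
abbrev Sphere : Type := OnePoint ℂ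

/-- The inversion `z ↦ 1/z` of the Riemann sphere. -/
noncomputable def inversion : Sphere → Sphere := fun x =>
  OnePoint.elim x ((0 : ℂ) : Sphere)
    (fun z => if z = 0 then OnePoint.infty else ((z⁻¹ : ℂ) : Sphere))

/-- The self-map `z ↦ A z / B z` of the Riemann sphere, for coprime polynomials `A`, `B`. -/
noncomputable def ratMap (A B : Polynomial ℂ) : Sphere → Sphere := fun x =>
  OnePoint.elim x
    (if B.natDegree < A.natDegree then OnePoint.infty
      else ((A.coeff B.natDegree / B.coeff B.natDegree : ℂ) : Sphere))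
    (fun z => if B.eval z = 0 then OnePoint.infty else ((A.eval z / B.eval z : ℂ) : Sphere))

/-- `C` is an analytic Jordan curve: the image of an injective regular real-analytic map
`γ : ℝ/ℤ → Sphere`. Real-analyticity and regularity at `t` are tested in the coordinate `z` or
in the coordinate `1/z` of the sphere. -/
def IsAnalyticJordanCurve (C : Set Sphere) : Prop :=
  ∃ γ : ℝ → Sphere, (∀ t, γ (t + 1) = γ t) ∧ (∀ t t', γ t = γ t' → ∃ k : ℤ, t' = t + k) ∧
    (∀ t, ∃ u : ℝ → ℂ, AnalyticAt ℝ u t ∧ deriv u t ≠ 0 ∧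
      ((∀ᶠ s in 𝓝 t, γ s = (u s : Sphere)) ∨ ∀ᶠ s in 𝓝 t, γ s = inversion (u s : Sphere))) ∧
    C = range γ

/-- The restriction of `f` to `C` is topologically conjugate to an irrational rotation of the
unit circle. -/
def IrrationalRotationOn (f : Sphere → Sphere) (C : Set Sphere) : Prop :=
  ∃ (α : ℝ) (h : C ≃ₜ Circle), Irrational α ∧
    ∀ z w : C, f z = w → h w = Circle.exp (2 * Real.pi * α) * h z

/-- A round circle of the Riemann sphere: a Euclidean circle, or a line together with `∞`. -/
def IsRoundCircle (C : Set Sphere) : Prop :=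
  (∃ (a : ℂ) (r : ℝ), 0 < r ∧ C = (fun z : ℂ => (z : Sphere)) '' {z | ‖z - a‖ = r}) ∨
    ∃ a v : ℂ, v ≠ 0 ∧
      C = insert OnePoint.infty ((fun z : ℂ => (z : Sphere)) '' {z | ∃ t : ℝ, z = a + t * v})

/-- The Fatou set of `f`: the set of the points having a neighbourhood on which the iterates of
`f` are equicontinuous, for the uniform structure of the compact space `Sphere` (whose entourages
are the neighbourhoods of the diagonal). -/
def FatouSet (f : Sphere → Sphere) : Set Sphere :=
  {z | ∃ W ∈ 𝓝 z, ∀ x ∈ W, ∀ D : Set (Sphere × Sphere), IsOpen D → (∀ p, (p, p) ∈ D) →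
    ∀ᶠ y in 𝓝 x, ∀ n : ℕ, (f^[n] x, f^[n] y) ∈ D}

/-- The complex valued function `φ` is holomorphic at every point of the set `U`, in the
coordinates `z` and `1/z` of the sphere. -/
def HolomorphicOn (φ : Sphere → ℂ) (U : Set Sphere) : Prop :=
  (∀ z : ℂ, (z : Sphere) ∈ U → AnalyticAt ℂ (fun w : ℂ => φ (w : Sphere)) z) ∧
    (OnePoint.infty ∈ U → AnalyticAt ℂ (fun w : ℂ => φ (inversion (w : Sphere))) 0)

/-- `U` is a Siegel disk or a Herman ring of `f`, and `φ` is a linearizer of `U`: `U` is a
connected component of the Fatou set, `f U = U`, and `φ` maps `U` conformally onto a round disk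
or a round annulus centred at `0`, conjugating `f` to the rotation by the irrational
number `α`. -/
structure IsRotationDomain (f : Sphere → Sphere) (U : Set Sphere) (φ : Sphere → ℂ) (α : ℝ) :
    Prop where
  component : ∃ z ∈ FatouSet f, U = connectedComponentIn (FatouSet f) z
  invariant : f '' U = U
  holomorphic : HolomorphicOn φ U
  injective : InjOn φ U
  conjugates : ∀ z ∈ U, φ (f z) = Complex.exp (2 * Real.pi * Complex.I * α) * φ z
  irrational : Irrational α
  image : (∃ R : ℝ, 0 < R ∧ φ '' U = {w | ‖w‖ < R}) ∨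
    ∃ r R : ℝ, 0 < r ∧ r < R ∧ φ '' U = {w | r < ‖w‖ ∧ ‖w‖ < R}

/-- **Negative answer to the question of Eremenko.** Let `f = A/B` be a rational function of
degree at least `2` and `C` an analytic Jordan curve with `f C = C` on which `f` is topologically
conjugate to an irrational rotation. Then `C` is a round circle or a level curve `|φ| = c` of the
linearizer `φ` of a Siegel disk or a Herman ring of `f`. -/
theorem result (A B : Polynomial ℂ) (hAB : IsCoprime A B)
    (hdeg : 2 ≤ max A.natDegree B.natDegree) (C : Set Sphere) (hC : IsAnalyticJordanCurve C)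
    (hinv : ratMap A B '' C = C) (hrot : IrrationalRotationOn (ratMap A B) C) :
    IsRoundCircle C ∨
      ∃ (U : Set Sphere) (φ : Sphere → ℂ) (α c : ℝ), IsRotationDomain (ratMap A B) U φ α ∧
        0 < c ∧ C = {z | z ∈ U ∧ ‖φ z‖ = c} := by
  have hB : B ≠ 0 := by
    rintro rfl
    rw [isCoprime_zero_right] at hAB
    have h1 := Polynomial.natDegree_eq_zero_of_isUnit hAB
    simp [h1] at hdeg
  have hf : ∀ p, Lib.MP_1f4a82_an.HolAt (ratMap A B) p := fun p =>
    Lib.MP_1f4a82_an.holAt_ratMap hAB hB p
  have hni : ¬ Function.Injective (ratMap A B) :=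
    Lib.MP_1f4a82_an.ratMap_not_injective hAB hdeg
  obtain ⟨c, hc⟩ := Lib.MP_1f4a82_an.exists_invCurve hf (C := C) hC hinv hrot
  by_cases hst : c.Stable
  · right
    obtain ⟨U, φ, α, hL, hU⟩ := Lib.MP_1f4a82_an.rotation_of_stable hf hni c hst
    refine ⟨U, φ, α, 1, ⟨hL.comp, hL.image, ⟨fun z hz => ?_, fun hz => ?_⟩, hL.inj, hL.conj,
      hL.irr, hL.range⟩, one_pos, hc.symm.trans hU⟩
    · exact Lib.MP_1f4a82_an.holAt_iff_analyticAt.mp
        (Lib.MP_1f4a82_an.holAt_coe_iff.mp (hL.hol _ hz))
    · exact Lib.MP_1f4a82_an.holAt_iff_analyticAt.mp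
        (Lib.MP_1f4a82_an.holAt_infty_iff.mp (hL.hol _ hz))
  · left
    obtain ⟨h, hh, hhi, heq⟩ := Lib.MP_1f4a82_an.round_of_not_stable hf c hst
    rw [← hc, heq]
    exact Lib.MP_1f4a82_an.isRoundCircle_of_moebius hh hhi

end Pool.Agent.Results.MP_1f4a82_an.InvariantCurve
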